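import Mathlib
import Pool.Agent.Y704.PC.Asm
import Pool.Agent.Y704.PC.Deg
import Pool.Agent.Y704.PC.Arc
import Pool.Agent.Y704.PC.Chain
import Pool.Agent.Y486.PC.Theta
import Pool.Agent.Y486.PC.Null
import Pool.Agent.Y50.PC.P
import Pool.Agent.Y799.PC.Y

/-!
Pseudo-instability of points is not a local property of locally connected continua.

Let `D` be the compact monoid consisting of the closed unit disc and a ray `(r, e^{i log r})`,
`0 < r ≤ 1`, spiralling to its boundary. Let `P` be the solid cylinder `[0,1] × disc` together with a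
thin tube along the ray: over the point of the ray with first coordinate `r` stands a circle of
radius `r`. `P` is a locally connected continuum, on which the monoid `D` acts; it is not
contractible, since in a homotopy the small circles over the ray cannot leave the strand of the tube.
Let `Z` be the union of countably many copies of `P`, each joined to the next one at a point,
converging to a point `e`; the monoid `Q` (the ordinal sum of countably many copies of `D`) acts on
`Z`, and only the identity of `Q` has `e` in the image. Let `X = [0,1] × Z`; then `(1/2, e)` is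
pseudo-unstable in `X`. Let `Y` be `X` with circles attached at a sequence of points `(1, z)` which
comes back infinitely often to each point of a dense sequence. The circles keep the points `(1, z)`
in place under every motion, and then all points `(t, e)` can only move in `[0,1] × {e}`, as `P` is
not contractible; so `(1/2, e)` is not pseudo-unstable in `Y`.
-/

set_option autoImplicit false

open Set Topology

namespace Pool.Agent.Results.MP_a217de_gt.LocallyConnected

/-- The point `p` of `M` is `C_a`-unstable in `M`. -/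
def UnstableVia {M : Type} [TopologicalSpace M] (C : Type) [TopologicalSpace C] (a : C) (p : M) :
    Prop :=
  ∃ F : M × C → M, Continuous F ∧ (∀ z : M, F (z, a) = z) ∧
    ∀ (z : M) (c : C), c ≠ a → F (z, c) ≠ p

/-- The point `p` of `M` is pseudo-unstable in `M`: it is `C_a`-unstable in `M` for some
nondegenerate continuum `C` and some `a : C`. -/
def PseudoUnstable {M : Type} [TopologicalSpace M] (p : M) : Prop :=
  ∃ (C : Type) (_ : MetricSpace C), CompactSpace C ∧ ConnectedSpace C ∧ Nontrivial C ∧
    ∃ a : C, UnstableVia C a p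

/-- There are locally connected continua `X` and `Y`, points `x` and `y`, and a homeomorphism
between a neighbourhood of `x` and a neighbourhood of `y` sending `x` to `y`, such that `x` is
pseudo-unstable in `X` and `y` is not pseudo-unstable in `Y`. -/
theorem result : ∃ (X Y : Type) (_ : MetricSpace X) (_ : MetricSpace Y),
    (CompactSpace X ∧ ConnectedSpace X ∧ LocallyConnectedSpace X) ∧
    (CompactSpace Y ∧ ConnectedSpace Y ∧ LocallyConnectedSpace Y) ∧
    ∃ (x : X) (y : Y) (U : Set X) (V : Set Y) (hU : U ∈ 𝓝 x) (_ : V ∈ 𝓝 y) (h : U ≃ₜ V),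
      (h ⟨x, mem_of_mem_nhds hU⟩ : Y) = y ∧ PseudoUnstable x ∧ ¬ PseudoUnstable y := by
  have hD := Pool.Agent.Y704.PC.t_deg
  have hS := Pool.Agent.Y704.PC.t_surj
  have hC := Pool.Agent.Y704.PC.t_chain
  have hN := Pool.Agent.Y486.PC.t_null hD hS Pool.Agent.Y486.PC.t_theta
  have hP := Pool.Agent.Y50.PC.t_P Pool.Agent.Y704.PC.t_arc
  have hY := Pool.Agent.Y799.PC.t_Y Pool.Agent.Y704.PC.t_arc
  obtain ⟨a, hX1, hY1, hits⟩ := Pool.Agent.Y704.PC.main hD hS hN hP hC hY
  let mX : MetricSpace Pool.Agent.Y704.PC.X :=
    TopologicalSpace.metrizableSpaceMetric Pool.Agent.Y704.PC.X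
  let mY : MetricSpace ↥(Pool.Agent.Y704.PC.Yset a) :=
    TopologicalSpace.metrizableSpaceMetric ↥(Pool.Agent.Y704.PC.Yset a)
  let mQ : MetricSpace ↥Pool.Agent.W621.Spiral.Q :=
    TopologicalSpace.metrizableSpaceMetric ↥Pool.Agent.W621.Spiral.Q
  refine ⟨Pool.Agent.Y704.PC.X, ↥(Pool.Agent.Y704.PC.Yset a), mX, mY, hX1, hY1,
    Pool.Agent.Y704.PC.x0, Pool.Agent.Y704.PC.y0 a, _, _, ?_, ?_, Pool.Agent.Y704.PC.loc a, rfl,
    ?_, ?_⟩
  · refine (isOpen_lt (continuous_subtype_val.comp continuous_fst) continuous_const).mem_nhds ?_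
    show (1 / 2 : ℝ) < 1
    norm_num
  · refine (isOpen_lt (continuous_fst.comp continuous_subtype_val) continuous_const).mem_nhds ?_
    show (1 / 2 : ℝ) < 1
    norm_num
  · refine ⟨↥Pool.Agent.W621.Spiral.Q, mQ, isCompact_iff_compactSpace.1
      Pool.Agent.W621.Spiral.isCompact_Q, isConnected_iff_connectedSpace.1
      Pool.Agent.W621.Spiral.isConnected_Q, Pool.Agent.W621.Spiral.nontrivial_Q,
      ⟨1, Pool.Agent.W621.Spiral.one_mem_Q⟩, Pool.Agent.Y704.PC.F,
      Pool.Agent.Y704.PC.continuous_F, Pool.Agent.Y704.PC.F_one,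
      Pool.Agent.Y704.PC.F_ne⟩
  · rintro ⟨C, _, hC1, hC2, hC3, a', G, hG, hGa, hGne⟩
    obtain ⟨z, c, hc, h⟩ := hits C a' G hG hGa
    exact hGne z c hc h

end Pool.Agent.Results.MP_a217de_gt.LocallyConnected
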